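import Pool.Agent.Y6.S.Stm
import Pool.Agent.Y6.S.Conv
import Pool.Agent.Y710.EP.P3

/-!
Job SK-XE2: sizes of the remainders `E1`, `E2` of the normal form.
-/

open Set Filter Topology MeasureTheory

set_option autoImplicit false
set_option linter.all false

namespace Pool.Agent.Y971.SK

open Pool.Agent.Y6.S
open Pool.Agent.Y5.D Pool.Agent.Y5.E
open Pool.Agent.Y5.F (Aq Awq Yk Wk)
open Pool.Agent.Y6.N (lin)
open Pool.Agent.Y5.S2 (Sq6 Rot2 Om Az Dis2 NSol2 Init2 S_DYN6)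
open Pool.Agent.Y710.EP
open Pool.Agent.Y8.EP (Sq5 GrowE Grow5)

variable {J : Type} {g : J → ℕ} {κ μ lam Λ M : ℝ} {L C ℓ : ℕ → ℝ} {B : ℕ → ℕ → ℝ}
  {c : Ix J → Ix J → Ix J → ℝ}

/-! ### Rapidly decreasing vectors -/

theorem Rp.add {z y : Ix J → ℝ} (hL : ∀ n, 0 ≤ L n) (hz : Rp g L z) (hy : Rp g L y) :
    Rp g L (fun i => z i + y i) := by
  intro k
  obtain ⟨K1, h1⟩ := hz k
  obtain ⟨K2, h2⟩ := hy k
  refine ⟨K1 + K2, fun a => ?_⟩
  calc L (gr g a) ^ k * |z a + y a| ≤ L (gr g a) ^ k * (|z a| + |y a|) :=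
        mul_le_mul_of_nonneg_left (abs_add_le _ _) (pow_nonneg (hL _) _)
    _ = L (gr g a) ^ k * |z a| + L (gr g a) ^ k * |y a| := by ring
    _ ≤ _ := add_le_add (h1 a) (h2 a)

theorem Rp.smul {z : Ix J → ℝ} (r : ℝ) (hz : Rp g L z) : Rp g L (fun i => r * z i) := by
  intro k
  obtain ⟨K1, h1⟩ := hz k
  refine ⟨|r| * K1, fun a => ?_⟩
  rw [abs_mul]
  calc L (gr g a) ^ k * (|r| * |z a|) = |r| * (L (gr g a) ^ k * |z a|) := by ring
    _ ≤ _ := mul_le_mul_of_nonneg_left (h1 a) (abs_nonneg _)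

theorem Rp.sub {z y : Ix J → ℝ} (hL : ∀ n, 0 ≤ L n) (hz : Rp g L z) (hy : Rp g L y) :
    Rp g L (fun i => z i - y i) := by
  have h := Rp.add hL hz (Rp.smul (-1) hy)
  have e : (fun i => z i - y i) = fun i => z i + -1 * y i := by
    funext i; ring
  rw [e]
  exact h

/-! ### Group sums -/

theorem sA_succ (q : ℝ) (b : ℕ → ℝ) (m : ℕ) : sA q b (m + 1) = q * sA q b m + b m := by
  unfold sA
  rw [Finset.sum_range_succ, Finset.mul_sum]
  congr 1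
  · refine Finset.sum_congr rfl fun p hp => ?_
    have hp := Finset.mem_range.1 hp
    rw [show m + 1 - 1 - p = (m - 1 - p) + 1 by omega, pow_succ]
    ring
  · simp

theorem sA_zero (q : ℝ) (b : ℕ → ℝ) : sA q b 0 = 0 := by simp [sA]

theorem sA_smul (q x : ℝ) (b : ℕ → ℝ) (m : ℕ) : sA q (fun p => x * b p) m = x * sA q b m := by
  unfold sA
  rw [Finset.mul_sum]
  exact Finset.sum_congr rfl fun p _ => by ring

/-- double groups -/
def dbl (b : ℕ → ℝ) (p : ℕ) : ℝ := b (2 * (p / 2)) + b (2 * (p / 2) + 1)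

theorem sA_dbl {q : ℝ} (hq : 0 < q) (hq1 : q ≤ 1) {b : ℕ → ℝ} (hb : ∀ p, 0 ≤ b p) (G : ℕ) :
    sA q (dbl b) (2 * G) ≤ (1 + 1 / q) * sA q b (2 * G) := by
  induction G with
  | zero => simp [sA]
  | succ G ih =>
    have e1 : dbl b (2 * G) = b (2 * G) + b (2 * G + 1) := by
      unfold dbl
      rw [show 2 * G / 2 = G by omega]
    have e2 : dbl b (2 * G + 1) = b (2 * G) + b (2 * G + 1) := by
      unfold dbl
      rw [show (2 * G + 1) / 2 = G by omega]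
    rw [show 2 * (G + 1) = 2 * G + 1 + 1 by ring, sA_succ, sA_succ, sA_succ, sA_succ, e1, e2]
    have h1 := hb (2 * G)
    have h2 := hb (2 * G + 1)
    have h3 : q * (1 / q) = 1 := by field_simp
    have h4 : 1 ≤ 1 / q := by rw [le_div_iff₀ hq]; linarith
    have h5 : q * b (2 * G + 1) ≤ 1 / q * b (2 * G + 1) := by
      apply mul_le_mul_of_nonneg_right _ h2
      linarith
    calc q * (q * sA q (dbl b) (2 * G) + (b (2 * G) + b (2 * G + 1))) +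
          (b (2 * G) + b (2 * G + 1))
        = q * q * sA q (dbl b) (2 * G) + (q * b (2 * G) + b (2 * G)) + b (2 * G + 1)
          + q * b (2 * G + 1) := by ring
      _ ≤ q * q * ((1 + 1 / q) * sA q b (2 * G)) + (q * b (2 * G) + b (2 * G)) + b (2 * G + 1)
          + 1 / q * b (2 * G + 1) := by
          have := mul_le_mul_of_nonneg_left ih (mul_nonneg hq.le hq.le)
          linarith
      _ = (1 + 1 / q) * (q * (q * sA q b (2 * G) + b (2 * G)) + b (2 * G + 1))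
          - (q * (1 / q) - 1) * b (2 * G) := by ring
      _ = _ := by rw [h3]; ring

/-! ### Sizes -/

/-- `β` has the size `x` times the size `(b, U)` in the group `n` -/
def Sz (g : J → ℕ) (L : ℕ → ℝ) (q : ℝ) (n : ℕ) (b : ℕ → ℝ) (U x : ℝ) (β : Ix J → ℝ) : Prop :=
  Nice g L β ∧ ∃ b' : ℕ → ℝ, (∀ p, nm (Pg g p β) ≤ b' p) ∧ sA q b' n ≤ x * sA q b n ∧
    nm (Pu g n β) ≤ x * U ∧ (if n = 0 then 0 else b' (n - 1)) ≤ x * Zp b n

theorem Zp_nn {b : ℕ → ℝ} (hb : ∀ p, 0 ≤ b p) (n : ℕ) : 0 ≤ Zp b n := by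
  unfold Zp
  split_ifs <;> first | exact add_nonneg (by first | exact le_rfl | exact hb _) (by first | exact le_rfl | exact hb _) | skip

theorem Zp_ge {b : ℕ → ℝ} (hb : ∀ p, 0 ≤ b p) (n : ℕ) : (if n = 0 then 0 else b (n - 1)) ≤ Zp b n := by
  unfold Zp
  have h : 0 ≤ (if n ≤ 1 then 0 else b (n - 2)) := by
    split_ifs
    exacts [le_rfl, hb _]
  linarith

theorem sz_pm (hs : Sq5 κ μ lam Λ M L C ℓ B) {y : Ix J → ℝ} (hy : Nice g L y) {b : ℕ → ℝ}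
    (hb : ∀ p, nm (Pg g p y) ≤ b p) {n : ℕ} {U : ℝ} (hU : nm (Pu g n y) ≤ U) :
    Sz g L (Λ / lam) n b U 1 (Pm y) := by
  have hb0 : ∀ p, 0 ≤ b p := fun p => (nm_nn _).trans (hb p)
  refine ⟨hy.pm hs, b, fun p => ?_, by rw [one_mul], ?_, ?_⟩
  · refine (nm_mono hs (hy.pg hs p) fun a => ?_).trans (hb p)
    unfold Pg
    split_ifs
    exacts [Pm_le y a, le_rfl]
  · rw [one_mul]
    refine (nm_mono hs (hy.pu hs n) fun a => ?_).trans hU
    unfold Pu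
    split_ifs
    exacts [Pm_le y a, le_rfl]
  · rw [one_mul]
    exact Zp_ge hb0 n

theorem ww_le_b (hs : Sq5 κ μ lam Λ M L C ℓ B) {y : Ix J → ℝ} (hy : Nice g L y) {b : ℕ → ℝ}
    (hb : ∀ p, nm (Pg g p y) ≤ b p) (p : ℕ) : ww g y p ≤ b p := by
  refine (nm_mono hs (hy.pg hs p) fun a => ?_).trans (hb p)
  unfold Pg
  split_ifs
  exacts [Po_le y a, le_rfl]

theorem po_le_u (hs : Sq5 κ μ lam Λ M L C ℓ B) {y : Ix J → ℝ} (hy : Nice g L y) {n : ℕ} {U : ℝ}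
    (hU : nm (Pu g n y) ≤ U) : nm (Pu g n (Po y)) ≤ U := by
  refine (nm_mono hs (hy.pu hs n) fun a => ?_).trans hU
  unfold Pu
  split_ifs
  exacts [Po_le y a, le_rfl]


theorem sz_wt (hs : Sq5 κ μ lam Λ M L C ℓ B) {y : Ix J → ℝ} (hy : Nice g L y) {b : ℕ → ℝ}
    (hb : ∀ p, nm (Pg g p y) ≤ b p) {n : ℕ} {U : ℝ} (hU : nm (Pu g n y) ≤ U) {ω : ℕ → ℝ} {X : ℝ}
    (hX : 0 ≤ X) (hny : Nice g L (wt g ω y))
    (hW : (∀ p, nm (Pg g p (wt g ω y)) ≤ X * ww g y p) ∧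
      ∀ m, nm (Pu g m (wt g ω y)) ≤ X * nm (Pu g m (Po y))) :
    Sz g L (Λ / lam) n b U X (wt g ω y) := by
  have hb0 : ∀ p, 0 ≤ b p := fun p => (nm_nn _).trans (hb p)
  refine ⟨hny, fun p => X * b p, fun p => ?_, (sA_smul _ _ _ _).le, ?_, ?_⟩
  · exact (hW.1 p).trans (mul_le_mul_of_nonneg_left (ww_le_b hs hy hb p) hX)
  · exact (hW.2 n).trans (mul_le_mul_of_nonneg_left (po_le_u hs hy hU) hX)
  · have h := mul_le_mul_of_nonneg_left (Zp_ge hb0 n) hX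
    rw [mul_ite, mul_zero] at h
    exact h

theorem sz_wr (hs : Sq5 κ μ lam Λ M L C ℓ B) {y y' : Ix J → ℝ} (hy : Nice g L y) {b : ℕ → ℝ}
    (hb : ∀ p, nm (Pg g p y) ≤ b p) {G : ℕ} {U : ℝ} (hU : nm (Pu g (2 * G) y) ≤ U) {ω : ℕ → ℝ}
    {X : ℝ} (hX : 0 ≤ X) (hq : 0 < Λ / lam) (hny : Nice g L (wt g ω y'))
    (hR1 : ∀ p, ww g y' p ≤ ww g y (2 * (p / 2)) + ww g y (2 * (p / 2) + 1))
    (hR2 : nm (Pu g (2 * G) (Po y')) = nm (Pu g (2 * G) (Po y)))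
    (hW : (∀ p, nm (Pg g p (wt g ω y')) ≤ X * ww g y' p) ∧
      ∀ m, nm (Pu g m (wt g ω y')) ≤ X * nm (Pu g m (Po y'))) :
    Sz g L (Λ / lam) (2 * G) b U (X * (1 + 1 / (Λ / lam))) (wt g ω y') := by
  have hb0 : ∀ p, 0 ≤ b p := fun p => (nm_nn _).trans (hb p)
  have hU0 : 0 ≤ U := (nm_nn _).trans hU
  have hK1 : 1 ≤ 1 + 1 / (Λ / lam) := by
    have : 0 ≤ 1 / (Λ / lam) := by positivity
    linarith
  have hXK : X ≤ X * (1 + 1 / (Λ / lam)) := le_mul_of_one_le_right hX hK1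
  refine ⟨hny, fun p => X * dbl b p, fun p => ?_, ?_, ?_, ?_⟩
  · refine (hW.1 p).trans (mul_le_mul_of_nonneg_left ((hR1 p).trans ?_) hX)
    exact add_le_add (ww_le_b hs hy hb _) (ww_le_b hs hy hb _)
  · rw [sA_smul]
    calc X * sA (Λ / lam) (dbl b) (2 * G)
        ≤ X * ((1 + 1 / (Λ / lam)) * sA (Λ / lam) b (2 * G)) :=
          mul_le_mul_of_nonneg_left (sA_dbl hq (ρ_le hs) hb0 G) hX
      _ = _ := by ring
  · refine (hW.2 (2 * G)).trans ?_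
    rw [hR2]
    calc X * nm (Pu g (2 * G) (Po y)) ≤ X * U :=
          mul_le_mul_of_nonneg_left (po_le_u hs hy hU) hX
      _ ≤ _ := mul_le_mul_of_nonneg_right hXK hU0
  · have h1 : (if 2 * G = 0 then 0 else X * dbl b (2 * G - 1)) ≤ X * Zp b (2 * G) := by
      by_cases h : G = 0
      · subst h
        simp [Zp]
      · rw [if_neg (by omega)]
        unfold Zp dbl
        rw [if_neg (by omega), if_neg (by omega), show 2 * ((2 * G - 1) / 2) = 2 * G - 2 by omega,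
          show 2 * G - 2 + 1 = 2 * G - 1 by omega, add_comm]
    exact h1.trans (mul_le_mul_of_nonneg_right hXK (Zp_nn hb0 _))

/-- the estimate `S_KB` for given parameters -/
def KBx (g : J → ℕ) (L : ℕ → ℝ) (q : ℝ) (c : Ix J → Ix J → Ix J → ℝ) (N₀ : ℝ) : Prop :=
  ∀ (n : ℕ) (α β γ : Ix J → ℝ) (b b' : ℕ → ℝ), Nice g L α → Nice g L β → Nice g L γ →
    ((∀ i, gr g i ≠ n → α i = 0) ∨ (n % 2 = 0 ∧ ∀ i, gr g i / 2 ≠ n / 2 → α i = 0)) →
    (∀ p, nm (Pg g p β) ≤ b p) → (∀ p, nm (Pg g p γ) ≤ b' p) →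
    |tl c α β γ| ≤ N₀ * nm α * (L n * (
      (sA q b n + nm (Pu g n β)) * (nm (Pu g n γ) + if n = 0 then 0 else b' (n - 1))
      + (sA q b' n + nm (Pu g n γ)) * (nm (Pu g n β) + if n = 0 then 0 else b (n - 1))))

theorem tl_sz (hs : Sq5 κ μ lam Λ M L C ℓ B) {N₀ : ℝ} (hN₀ : 1 ≤ N₀)
    (hKB : KBx g L (Λ / lam) c N₀) {G : ℕ} {α β γ : Ix J → ℝ} (hα : Nice g L α)
    (hG : ∀ i, gr g i / 2 ≠ G → α i = 0) {b1 b2 : ℕ → ℝ} {U1 U2 x y : ℝ}
    (hb1 : ∀ p, 0 ≤ b1 p) (hb2 : ∀ p, 0 ≤ b2 p) (hx : 0 ≤ x) (hy : 0 ≤ y) (hU1 : 0 ≤ U1)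
    (hU2 : 0 ≤ U2)
    (h1 : Sz g L (Λ / lam) (2 * G) b1 U1 x β) (h2 : Sz g L (Λ / lam) (2 * G) b2 U2 y γ) :
    |tl c α β γ| ≤ N₀ * nm α * (L (2 * G) * (x * y * (
      (sA (Λ / lam) b1 (2 * G) + U1) * (U2 + Zp b2 (2 * G))
      + (sA (Λ / lam) b2 (2 * G) + U2) * (U1 + Zp b1 (2 * G))))) := by
  obtain ⟨n1, b, hb, hA, hU, hZ⟩ := h1
  obtain ⟨n2, b', hb', hA', hU', hZ'⟩ := h2
  have h0 : ∀ p, 0 ≤ b p := fun p => (nm_nn _).trans (hb p)
  have h0' : ∀ p, 0 ≤ b' p := fun p => (nm_nn _).trans (hb' p)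
  refine (hKB (2 * G) α β γ b b' hα n1 n2 (Or.inr ⟨by omega, fun i hi => hG i (by omega)⟩)
    hb hb').trans ?_
  have e1 := sA_nn hs h0 (2 * G)
  have e2 := sA_nn hs h0' (2 * G)
  have e3 := sA_nn hs hb1 (2 * G)
  have e4 := sA_nn hs hb2 (2 * G)
  have e5 := Zp_nn hb1 (2 * G)
  have e6 := Zp_nn hb2 (2 * G)
  have e7 := nm_nn (Pu g (2 * G) β)
  have e8 := nm_nn (Pu g (2 * G) γ)
  have e9 : 0 ≤ (if 2 * G = 0 then 0 else b' (2 * G - 1)) := by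
    split_ifs
    exacts [le_rfl, h0' _]
  have e10 : 0 ≤ (if 2 * G = 0 then 0 else b (2 * G - 1)) := by
    split_ifs
    exacts [le_rfl, h0 _]
  have e11 : 0 ≤ N₀ * nm α := mul_nonneg (by linarith) (nm_nn _)
  refine mul_le_mul_of_nonneg_left (mul_le_mul_of_nonneg_left ?_ (L_nn hs _)) e11
  calc _ ≤ (x * sA (Λ / lam) b1 (2 * G) + x * U1) * (y * U2 + y * Zp b2 (2 * G))
        + (y * sA (Λ / lam) b2 (2 * G) + y * U2) * (x * U1 + x * Zp b1 (2 * G)) := by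
        gcongr
    _ = _ := by ring

/-! ### The linear term -/

theorem D_entry {a D₁ : ℝ} {D : Ix J → Ix J → ℝ} (hs : Sq5 κ μ lam Λ M L C ℓ B) {ℓ' : ℕ → ℝ}
    (hD : Dis2 g a D₁ κ L ℓ' D) : 0 ≤ D₁ ∧ ∀ i b, |D i b| ≤ D₁ * L (gr g i) := by
  classical
  have hκ := hs.κ0
  have key : ∀ (n : ℕ) (i b : Ix J), gr g i = n → gr g b = n → |D i b| ≤ D₁ * (κ ^ n * L n) := by
    intro n i b hi hb
    have h := hD.up n (Pi.single i 1) (Pi.single b 1)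
      (fun j hj => Pi.single_eq_of_ne (fun h => hj (by rw [h, hi])) _)
      (fun j hj => Pi.single_eq_of_ne (fun h => hj (by rw [h, hb])) _)
    rw [nm_single, nm_single, Real.sqrt_one, mul_one, mul_one, tsum_eq_single (i, b)] at h
    · simpa using h
    · rintro ⟨i', b'⟩ h'
      by_cases h1 : i' = i
      · by_cases h2 : b' = b
        · exact absurd (by rw [h1, h2]) h'
        · simp [Pi.single_eq_of_ne h2]
      · simp [Pi.single_eq_of_ne h1]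
  have h0 : 0 ≤ D₁ := by
    have h := (abs_nonneg _).trans (key 0 (Sum.inl 0) (Sum.inl 0) rfl rfl)
    have h1 : 0 < κ ^ 0 * L 0 := by
      have := hs.L0
      rw [pow_zero, one_mul]
      linarith
    by_contra h2
    push Not at h2
    have := mul_neg_of_neg_of_pos h2 h1
    linarith
  refine ⟨h0, fun i b => ?_⟩
  by_cases hD0 : D i b = 0
  · rw [hD0, abs_zero]
    exact mul_nonneg h0 (L_nn hs _)
  · refine (key (gr g i) i b rfl (hD.blk i b hD0).symm).trans ?_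
    refine mul_le_mul_of_nonneg_left ?_ h0
    exact mul_le_of_le_one_left (L_nn hs _) (pow_le_one₀ hs.κ0.le hs.κ1)

theorem D_pairs {a D₁ : ℝ} {D : Ix J → Ix J → ℝ} (hs : Sq5 κ μ lam Λ M L C ℓ B) {ℓ' : ℕ → ℝ}
    (hD : Dis2 g a D₁ κ L ℓ' D) {α y : Ix J → ℝ} (hα : Nice g L α) (hy : Nice g L y) :
    Summable (fun p : Ix J × Ix J => D p.1 p.2 * α p.1 * y p.2) := by
  obtain ⟨h0, h1⟩ := D_entry hs hD
  have h2 : Summable (fun p : Ix J × Ix J => (D₁ * (L (gr g p.1) * |α p.1|)) * |y p.2|) :=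
    (Summable.mul_left D₁ hα).mul_of_nonneg (hy.sum1 hs)
      (fun a => mul_nonneg h0 (mul_nonneg (L_nn hs _) (abs_nonneg _))) (fun _ => abs_nonneg _)
  refine Summable.of_norm_bounded h2 fun p => ?_
  rw [Real.norm_eq_abs, abs_mul, abs_mul]
  have h3 := h1 p.1 p.2
  calc |D p.1 p.2| * |α p.1| * |y p.2| = |D p.1 p.2| * (|α p.1| * |y p.2|) := by ring
    _ ≤ D₁ * L (gr g p.1) * (|α p.1| * |y p.2|) := mul_le_mul_of_nonneg_right h3 (by positivity)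
    _ = _ := by ring

theorem lin_bd {a D₁ : ℝ} {D : Ix J → Ix J → ℝ} (hs : Sq5 κ μ lam Λ M L C ℓ B) {ℓ' : ℕ → ℝ}
    (hD : Dis2 g a D₁ κ L ℓ' D) {α y : Ix J → ℝ} (hα : Nice g L α) (hy : Nice g L y) {G : ℕ}
    (hG : ∀ i, gr g i / 2 ≠ G → α i = 0) :
    Summable (fun i => α i * lin D y i) ∧ |∑' i, α i * lin D y i| ≤
      D₁ * ((1 + μ) * (κ ^ (2 * G) * L (2 * G))) * (nm α * nm (Pu g (2 * G) y)) := by
  have h := D_pairs hs hD hα hy
  obtain ⟨h0, -⟩ := D_entry hs hD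
  have e : ∀ i, ∑' b : Ix J, D i b * α i * y b = α i * lin D y i := by
    intro i
    unfold lin
    rw [← tsum_mul_left]
    exact tsum_congr fun p => by ring
  refine ⟨h.prod.congr fun i => e i, ?_⟩
  have e1 : ∑' i, α i * lin D y i = ∑' p : Ix J × Ix J, D p.1 p.2 * α p.1 * y p.2 := by
    rw [h.tsum_prod]
    exact tsum_congr fun i => (e i).symm
  have hκL : κ ^ (2 * G + 1) * L (2 * G + 1) = μ * (κ ^ (2 * G) * L (2 * G)) := by
    rw [hs.L_succ, hs.μ_eq, pow_succ]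
    ring
  have e2 : ∀ p : Ix J × Ix J, D p.1 p.2 * α p.1 * y p.2 =
      D p.1 p.2 * Pg g (2 * G) α p.1 * Pg g (2 * G) y p.2 +
      D p.1 p.2 * Pg g (2 * G + 1) α p.1 * Pg g (2 * G + 1) y p.2 := by
    intro p
    by_cases hp : D p.1 p.2 = 0
    · rw [hp]; ring
    · have hb := hD.blk _ _ hp
      by_cases h1 : gr g p.1 = 2 * G
      · unfold Pg
        rw [if_pos h1, if_pos (hb.symm.trans h1), if_neg (by omega)]
        ring
      · by_cases h2 : gr g p.1 = 2 * G + 1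
        · unfold Pg
          rw [if_neg h1, if_pos h2, if_pos (hb.symm.trans h2)]
          ring
        · have h3 : α p.1 = 0 := hG p.1 (by omega)
          unfold Pg
          rw [if_neg h1, if_neg h2, h3]
          ring
  have bd : ∀ m, 2 * G ≤ m → |∑' p : Ix J × Ix J, D p.1 p.2 * Pg g m α p.1 * Pg g m y p.2| ≤
      D₁ * (κ ^ m * L m) * (nm α * nm (Pu g (2 * G) y)) := by
    intro m hm
    have h1 := hD.up m (Pg g m α) (Pg g m y) (Pg_in m α) (Pg_in m y)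
    refine h1.trans ?_
    show D₁ * (κ ^ m * L m) * nm (Pg g m α) * nm (Pg g m y) ≤ _
    rw [mul_assoc]
    refine mul_le_mul_of_nonneg_left ?_ (mul_nonneg h0 (mul_nonneg (pow_nonneg hs.κ0.le _)
      (L_nn hs _)))
    refine mul_le_mul (nm_mono hs hα (Pg_le m α)) ?_ (nm_nn _) (nm_nn _)
    refine nm_mono hs (hy.pu hs _) fun a => ?_
    unfold Pg Pu
    by_cases h2 : gr g a = m
    · rw [if_pos h2, if_pos (by omega)]
    · rw [if_neg h2, abs_zero]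
      exact abs_nonneg _
  rw [e1, tsum_congr e2, Summable.tsum_add (D_pairs hs hD (hα.pg hs _) (hy.pg hs _))
    (D_pairs hs hD (hα.pg hs _) (hy.pg hs _))]
  refine (abs_add_le _ _).trans ((add_le_add (bd (2 * G) le_rfl) (bd (2 * G + 1) (by omega))).trans
    (le_of_eq ?_))
  rw [hκL]
  ring

/-! ### The bilinear terms -/

theorem TS_nn (hs : Sq5 κ μ lam Λ M L C ℓ B) (z : Ix J → ℝ) (p : ℕ) :
    0 ≤ TS κ (Λ / lam) L g z p := by
  unfold TS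
  have h1 := sA_nn hs (fun p => ee_nn (g := g) z p) p
  have h2 := Zp_nn (fun p => ee_nn (g := g) z p) p
  have h3 := nm_nn (Pu g p z)
  have h4 := L_nn hs p
  have h5 : 0 ≤ κ ^ p := pow_nonneg hs.κ0.le p
  positivity

theorem TTS_nn (z : Ix J → ℝ) (q : ℝ) (p : ℕ) : 0 ≤ TTS κ q L g z p := Real.sqrt_nonneg _

theorem Zp_smul (x : ℝ) (b : ℕ → ℝ) (n : ℕ) : Zp (fun p => x * b p) n = x * Zp b n := by
  unfold Zp
  rw [mul_add, mul_ite, mul_ite, mul_zero]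

theorem RS_ge (hs : Sq5 κ μ lam Λ M L C ℓ B) (z : Ix J → ℝ) (n : ℕ) :
    0 ≤ RS κ (Λ / lam) L g z n ∧ κ ^ n * TTS κ (Λ / lam) L g z n ≤ RS κ (Λ / lam) L g z n ∧
    (sA (Λ / lam) (ee g z) n + nm (Pu g n z)) *
        (TTS κ (Λ / lam) L g z n + Zp (TS κ (Λ / lam) L g z) n)
      + (sA (Λ / lam) (TS κ (Λ / lam) L g z) n + TTS κ (Λ / lam) L g z n) *
        (nm (Pu g n z) + Zp (ee g z) n) ≤ RS κ (Λ / lam) L g z n := by
  unfold RS
  have h1 := sA_nn hs (fun p => ee_nn (g := g) z p) n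
  have h2 := Zp_nn (fun p => ee_nn (g := g) z p) n
  have h3 := nm_nn (Pu g n z)
  have h5 : 0 ≤ κ ^ n := pow_nonneg hs.κ0.le n
  have h6 := sA_nn hs (fun p => TS_nn (g := g) hs z p) n
  have h7 := Zp_nn (fun p => TS_nn (g := g) hs z p) n
  have h8 := TTS_nn (κ := κ) (L := L) (g := g) z (Λ / lam) n
  have a1 := mul_nonneg h5 h8
  have a2 := mul_nonneg h5 h7
  have a3 := mul_nonneg h1 h8
  have a4 := mul_nonneg h1 h7
  have a5 := mul_nonneg h3 h8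
  have a6 := mul_nonneg h3 h7
  have a7 := mul_nonneg h6 h3
  have a8 := mul_nonneg h6 h2
  have a9 := mul_nonneg h8 h3
  have a10 := mul_nonneg h8 h2
  refine ⟨?_, ?_, ?_⟩ <;> nlinarith

theorem bs_bd (hK : Ker g Λ M L C B c) (hs : Sq5 κ μ lam Λ M L C ℓ B) {N₀ N₁ : ℝ}
    (hN₀ : 1 ≤ N₀) (hN₁ : 1 ≤ N₁) (hKB : KBx g L (Λ / lam) c N₀) {z : Ix J → ℝ} {G : ℕ}
    {α β γ : Ix J → ℝ} (hα : Nice g L α)
    (hG : ∀ i, gr g i / 2 ≠ G → α i = 0) {x y : ℝ} (hx : 0 ≤ x) (hy : 0 ≤ y)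
    (h1 : Sz g L (Λ / lam) (2 * G) (ee g z) (nm (Pu g (2 * G) z)) x β)
    (h2 : Sz g L (Λ / lam) (2 * G) (fun p => N₁ * TS κ (Λ / lam) L g z p)
      (N₁ * TTS κ (Λ / lam) L g z (2 * G)) y γ) :
    Summable (fun i => α i * bs c β γ i) ∧ |∑' i, α i * bs c β γ i| ≤
      2 * N₀ * N₁ * (L (2 * G) * (x * y)) * RS κ (Λ / lam) L g z (2 * G) * nm α := by
  have hTS := fun p => TS_nn (g := g) hs z p
  have hTT := TTS_nn (κ := κ) (L := L) (g := g) z (Λ / lam) (2 * G)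
  have hN₁' : 0 ≤ N₁ := by linarith
  obtain ⟨r1, r2, r3⟩ := RS_ge (g := g) hs z (2 * G)
  have k1 := tl_sz hs hN₀ hKB hα hG (ee_nn z) (fun p => mul_nonneg hN₁' (hTS p)) hx hy (nm_nn _)
    (mul_nonneg hN₁' hTT) h1 h2
  have k2 := tl_sz hs hN₀ hKB hα hG (fun p => mul_nonneg hN₁' (hTS p)) (ee_nn z) hy hx
    (mul_nonneg hN₁' hTT) (nm_nn _) h2 h1
  rw [sA_smul, Zp_smul] at k1 k2
  obtain ⟨s1, e1⟩ := tl_bl hK hs hα h1.1 h2.1
  obtain ⟨s2, e2⟩ := tl_bl hK hs hα h2.1 h1.1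
  have e : ∀ i, α i * bs c β γ i = α i * bl c β γ i + α i * bl c γ β i := fun i => by
    unfold bs; ring
  refine ⟨(s1.add s2).congr fun i => (e i).symm ▸ rfl, ?_⟩
  rw [tsum_congr e, s1.tsum_add s2, e1, e2]
  refine (abs_add_le _ _).trans ((add_le_add k1 k2).trans ?_)
  have hc : 0 ≤ 2 * N₀ * N₁ * (L (2 * G) * (x * y)) * nm α := by
    have := L_nn hs (2 * G)
    have := nm_nn α
    have : 0 ≤ N₀ := by linarith
    positivity
  calc _ = 2 * N₀ * N₁ * (L (2 * G) * (x * y)) * nm α * (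
        (sA (Λ / lam) (ee g z) (2 * G) + nm (Pu g (2 * G) z)) *
          (TTS κ (Λ / lam) L g z (2 * G) + Zp (TS κ (Λ / lam) L g z) (2 * G))
        + (sA (Λ / lam) (TS κ (Λ / lam) L g z) (2 * G) + TTS κ (Λ / lam) L g z (2 * G)) *
          (nm (Pu g (2 * G) z) + Zp (ee g z) (2 * G))) := by ring
    _ ≤ 2 * N₀ * N₁ * (L (2 * G) * (x * y)) * nm α * RS κ (Λ / lam) L g z (2 * G) :=
        mul_le_mul_of_nonneg_left r3 hc
    _ = _ := by ring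

/-- the tail norm of `rr` -/
theorem TTS_ge (hs : Sq5 κ μ lam Λ M L C ℓ B) {r z : Ix J → ℝ} (hr : Nice g L r) {N₁ : ℝ}
    (hN₁ : 0 ≤ N₁) (hsum : Summable (fun p => TS κ (Λ / lam) L g z p ^ 2))
    (hb : ∀ p, nm (Pg g p r) ≤ N₁ * TS κ (Λ / lam) L g z p) (m : ℕ) :
    nm (Pu g m r) ≤ N₁ * TTS κ (Λ / lam) L g z m := by
  have h1 := fib_up hs hr m
  have h2 : Summable (fun k : ℕ => TS κ (Λ / lam) L g z (m + k) ^ 2) :=
    hsum.comp_injective (add_right_injective m)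
  have h3 : nm (Pu g m r) ^ 2 ≤ N₁ ^ 2 * ∑' k : ℕ, TS κ (Λ / lam) L g z (m + k) ^ 2 := by
    rw [← h1.tsum_eq, ← tsum_mul_left]
    refine h1.summable.tsum_le_tsum (fun k => ?_) (h2.mul_left _)
    rw [← mul_pow]
    exact pow_le_pow_left₀ (nm_nn _) (hb _) 2
  refine le_of_sq_le_sq ?_ (mul_nonneg hN₁ (TTS_nn _ _ _))
  rw [mul_pow]
  unfold TTS
  rw [Real.sq_sqrt (tsum_nonneg fun k => sq_nonneg _)]
  exact h3

/-- duality -/
theorem dual_eq (G : ℕ) (E : Ix J → ℝ) :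
    nm (wt g (w1 G) E) * nm (wt g (w1 G) E) = ∑' i, wt g (w1 G) E i * E i := by
  rw [← _root_.sq, nm_sq]
  refine tsum_congr fun i => ?_
  cases i with
  | inl n => simp [wt]
  | inr j =>
    show (w1 G (g j / 2) * E (Sum.inr j)) ^ 2 = w1 G (g j / 2) * E (Sum.inr j) * E (Sum.inr j)
    unfold w1
    split_ifs <;> ring

theorem wt_supp (G : ℕ) (E : Ix J → ℝ) : ∀ i, gr g i / 2 ≠ G → wt g (w1 G) E i = 0 := by
  intro i hi
  cases i with
  | inl n => rfl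
  | inr j =>
    have hi' : g j / 2 ≠ G := hi
    show w1 G (g j / 2) * E (Sum.inr j) = 0
    unfold w1
    rw [if_neg hi', zero_mul]

theorem div_le_aux {a K : ℝ} (ha : 0 ≤ a) (hK : 0 ≤ K) (h : a * a ≤ K * a) : a ≤ K := by
  rcases ha.eq_or_lt with h0 | h0
  · rw [← h0]; exact hK
  · exact le_of_mul_le_mul_right h h0

/-! ### The remainders -/

theorem t_XEA2 : S_XEA2 := by
  intro h65 hKBp hRAP hRBp hWTp J g σ τ κ μ lam Λ M a D₁ L C ℓ B D c hK hs6 hrot hD ha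
  obtain ⟨ℓ', hs⟩ := h65 κ μ lam Λ M L C ℓ B hs6
  obtain ⟨N₀, hN₀, hKB'⟩ := hKBp J g κ μ lam Λ M L C ℓ' B c hK hs
  have hKB : KBx g L (Λ / lam) c N₀ := hKB'
  obtain ⟨N₁, hN₁, hRB⟩ := hRBp J g κ μ lam Λ M a D₁ L C ℓ B D c hK hs6 hD
  obtain ⟨rNice, -, -, -, -, -, -, -, -, rPm, rPo, rrt, rwt, rbl, rlin, rrr⟩ :=
    hRAP J g σ τ κ μ lam Λ M a D₁ L C ℓ B D c hK hs6 hrot hD
  have hWT := hWTp J g σ τ κ μ lam Λ M L C ℓ B c hK hs6 hrot
  obtain ⟨hD0, -⟩ := D_entry hs hD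
  have hLn : ∀ n, 0 ≤ L n := L_nn hs
  have hlam : 0 < lam := lt_of_lt_of_le one_pos (lam_one hs)
  have hΛ : 0 < Λ := lt_of_lt_of_le one_pos (Λ_one hs)
  have hq : 0 < Λ / lam := div_pos hΛ hlam
  have hμ : 0 ≤ μ := by linarith [μ_one hs]
  have hN₀' : 0 ≤ N₀ := by linarith
  have hN₁' : 0 ≤ N₁ := by linarith
  set K₁ : ℝ := 1 + 1 / (Λ / lam) with hK₁
  have hK₁0 : 0 ≤ K₁ := by
    rw [hK₁]
    positivity
  refine ⟨1 + 10 * N₀ * N₁ + D₁ * (1 + μ) * N₁ + 8 * N₀ * N₁ * K₁, ?_, fun Q G z hQ hz => ?_⟩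
  · have : 0 ≤ 10 * N₀ * N₁ + D₁ * (1 + μ) * N₁ + 8 * N₀ * N₁ * K₁ := by positivity
    linarith
  have hr : Rp g L (rr D c z) := rrr z hz
  set r := rr D c z with hrdef
  have nz := rNice z hz
  have nr := rNice r hr
  have nrz := rrt z hz
  have nrr := rrt r hr
  obtain ⟨hsum, hbr⟩ := hRB z hz
  have hbz : ∀ p, nm (Pg g p z) ≤ ee g z p := grp_le hs nz
  have hUr := TTS_ge hs nr hN₁' hsum hbr (2 * G)
  have hQ0 : 0 < Q := by linarith
  have hκ : 0 < κ := hs.κ0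
  have hLpos : 0 < L (2 * G) := lt_of_lt_of_le one_pos (L_one hs _)
  have hO : 0 < Om Q κ L G := by
    unfold Om
    positivity
  have hOeq : Om Q κ L G = Q * (κ ^ (2 * G) * L (2 * G)) := rfl
  set O : ℝ := Om Q κ L G with hOdef
  have hX : 0 ≤ 2 / O := by positivity
  have wα' : ∀ q, |wα (Om Q κ L) G q| ≤ 2 / O := fun q => ((hWT z nz).2.1 Q G q hQ0).1
  have wβ' : ∀ q, |wβ (Om Q κ L) G q| ≤ 2 / O := fun q => ((hWT z nz).2.1 Q G q hQ0).2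
  have s1 : Sz g L (Λ / lam) (2 * G) (ee g z) (nm (Pu g (2 * G) z)) 1 (Pm z) :=
    sz_pm hs nz hbz le_rfl
  have s2 := sz_pm hs nr hbr hUr
  have s3 : Sz g L (Λ / lam) (2 * G) (ee g z) (nm (Pu g (2 * G) z)) (2 / O)
      (wt g (wα (Om Q κ L) G) z) :=
    sz_wt hs nz hbz le_rfl hX (rNice _ (rwt z _ _ wα' hz)) ((hWT z nz).1 _ _ wα')
  have s4 := sz_wt hs nr hbr hUr hX (rNice _ (rwt r _ _ wα' hr)) ((hWT r nr).1 _ _ wα')
  have s5 : Sz g L (Λ / lam) (2 * G) (ee g z) (nm (Pu g (2 * G) z)) (2 / O * K₁)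
      (wt g (wβ (Om Q κ L) G) (rt σ τ z)) :=
    sz_wr hs nz hbz le_rfl hX hq (rNice _ (rwt _ _ _ wβ' nrz)) (hWT z nz).2.2.1
      ((hWT z nz).2.2.2.1 G) ((hWT _ (rNice _ nrz)).1 _ _ wβ')
  have s6 : Sz g L (Λ / lam) (2 * G) (fun p => N₁ * TS κ (Λ / lam) L g z p)
      (N₁ * TTS κ (Λ / lam) L g z (2 * G)) (2 / O * K₁)
      (wt g (wβ (Om Q κ L) G) (rt σ τ r)) :=
    sz_wr hs nr hbr hUr hX hq (rNice _ (rwt _ _ _ wβ' nrr)) (hWT r nr).2.2.1
      ((hWT r nr).2.2.2.1 G) ((hWT _ (rNice _ nrr)).1 _ _ wβ')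
  have w1b : ∀ q, |w1 G q| ≤ 1 := fun q => by
    unfold w1
    split_ifs <;> simp
  obtain ⟨RS0, RS1, -⟩ := RS_ge (g := g) hs z (2 * G)
  have hTT := TTS_nn (κ := κ) (L := L) (g := g) z (Λ / lam) (2 * G)
  set R := RS κ (Λ / lam) L g z (2 * G) with hRdef
  set θ : ℝ := 1 / (Q * κ ^ (2 * G)) with hθ
  have hθ0 : 0 < θ := by
    rw [hθ]
    positivity
  have hLO : L (2 * G) * (1 / O) = θ := by
    rw [hθ, hOeq]
    field_simp
  have hLO2 : L (2 * G) * (2 / O) = 2 * θ := by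
    rw [← hLO]
    ring
  have hθκ : κ ^ (2 * G) * L (2 * G) * (1 / O) = θ * κ ^ (2 * G) := by
    rw [← hLO]
    ring
  have hfin : ∀ (α : Ix J → ℝ) (K : ℝ), 0 ≤ K →
      K ≤ 1 + 10 * N₀ * N₁ + D₁ * (1 + μ) * N₁ + 8 * N₀ * N₁ * K₁ →
      nm α * nm α ≤ K * θ * R * nm α →
      nm α ≤ (1 + 10 * N₀ * N₁ + D₁ * (1 + μ) * N₁ + 8 * N₀ * N₁ * K₁) /
        (Q * κ ^ (2 * G)) * R := by
    intro α K hK0 hKle h
    have h1 := div_le_aux (nm_nn α) (by positivity) h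
    refine h1.trans ?_
    rw [div_eq_mul_one_div, ← hθ]
    gcongr
  have p2 : 0 ≤ D₁ * (1 + μ) * N₁ := by positivity
  have p3 : 0 ≤ N₀ * N₁ * K₁ := by positivity
  have p4 : 0 ≤ N₀ * N₁ := by positivity
  constructor
  · -- `E1`
    have hα : Nice g L (wt g (w1 G) (E1 g D c (Om Q κ L) G z)) := by
      refine rNice _ (rwt _ _ 1 w1b ?_)
      refine Rp.add hLn (Rp.add hLn (Rp.smul _ (Rp.sub hLn ?_ (rlin _ (rPm _ hr)))) ?_) ?_
      · exact Rp.add hLn (rbl _ _ (rPm z hz) (rPm r hr)) (rbl _ _ (rPm r hr) (rPm z hz))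
      · exact Rp.add hLn (rbl _ _ (rPm r hr) (rwt z _ _ wα' hz))
          (rbl _ _ (rwt z _ _ wα' hz) (rPm r hr))
      · exact Rp.add hLn (rbl _ _ (rPm z hz) (rwt r _ _ wα' hr))
          (rbl _ _ (rwt r _ _ wα' hr) (rPm z hz))
    have hG := wt_supp (g := g) G (E1 g D c (Om Q κ L) G z)
    set α := wt g (w1 G) (E1 g D c (Om Q κ L) G z) with hαdef
    obtain ⟨a1, b1⟩ := bs_bd hK hs hN₀ hN₁ hKB hα hG zero_le_one zero_le_one s1 s2
    obtain ⟨a2, b2⟩ := lin_bd hs hD hα (nr.pm hs) hG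
    obtain ⟨a3, b3⟩ := bs_bd hK hs hN₀ hN₁ hKB hα hG hX zero_le_one s3 s2
    obtain ⟨a4, b4⟩ := bs_bd hK hs hN₀ hN₁ hKB hα hG zero_le_one hX s1 s4
    refine hfin α (10 * N₀ * N₁ + D₁ * (1 + μ) * N₁) (by positivity) (by nlinarith) ?_
    have hna := nm_nn α
    have e : nm α * nm α = 1 / O * ∑' i, α i * bs c (Pm z) (Pm r) i
        - 1 / O * ∑' i, α i * lin D (Pm r) i + ∑' i, α i * bs c (wt g (wα (Om Q κ L) G) z) (Pm r) i
        + ∑' i, α i * bs c (Pm z) (wt g (wα (Om Q κ L) G) r) i := by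
      rw [hαdef, dual_eq, ← hαdef]
      have hh := (((a1.hasSum.mul_left (1 / O)).sub (a2.hasSum.mul_left (1 / O))).add
        a3.hasSum).add a4.hasSum
      rw [← hh.tsum_eq]
      refine tsum_congr fun i => ?_
      unfold E1 bs
      ring
    have c2 : nm (Pu g (2 * G) (Pm r)) ≤ N₁ * TTS κ (Λ / lam) L g z (2 * G) := by
      have := s2.2
      obtain ⟨-, -, -, h, -⟩ := this
      rwa [one_mul] at h
    have d1 : 1 / O * ∑' i, α i * bs c (Pm z) (Pm r) i ≤ 2 * N₀ * N₁ * θ * R * nm α := by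
      calc _ ≤ 1 / O * (2 * N₀ * N₁ * (L (2 * G) * (1 * 1)) * R * nm α) :=
            mul_le_mul_of_nonneg_left ((le_abs_self _).trans b1) (by positivity)
        _ = 2 * N₀ * N₁ * (L (2 * G) * (1 / O)) * R * nm α := by ring
        _ = _ := by rw [hLO]
    have d3 : ∑' i, α i * bs c (wt g (wα (Om Q κ L) G) z) (Pm r) i ≤
        4 * N₀ * N₁ * θ * R * nm α := by
      calc _ ≤ 2 * N₀ * N₁ * (L (2 * G) * (2 / O * 1)) * R * nm α := (le_abs_self _).trans b3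
        _ = 2 * N₀ * N₁ * (L (2 * G) * (2 / O)) * R * nm α := by ring
        _ = _ := by rw [hLO2]; ring
    have d4 : ∑' i, α i * bs c (Pm z) (wt g (wα (Om Q κ L) G) r) i ≤
        4 * N₀ * N₁ * θ * R * nm α := by
      calc _ ≤ 2 * N₀ * N₁ * (L (2 * G) * (1 * (2 / O))) * R * nm α := (le_abs_self _).trans b4
        _ = 2 * N₀ * N₁ * (L (2 * G) * (2 / O)) * R * nm α := by ring
        _ = _ := by rw [hLO2]; ring
    have d2 : -(1 / O * ∑' i, α i * lin D (Pm r) i) ≤ D₁ * (1 + μ) * N₁ * θ * R * nm α := by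
      calc -(1 / O * ∑' i, α i * lin D (Pm r) i) = 1 / O * -(∑' i, α i * lin D (Pm r) i) := by ring
        _ ≤ 1 / O * (D₁ * ((1 + μ) * (κ ^ (2 * G) * L (2 * G))) *
              (nm α * nm (Pu g (2 * G) (Pm r)))) :=
            mul_le_mul_of_nonneg_left ((neg_le_abs _).trans b2) (by positivity)
        _ ≤ 1 / O * (D₁ * ((1 + μ) * (κ ^ (2 * G) * L (2 * G))) *
              (nm α * (N₁ * TTS κ (Λ / lam) L g z (2 * G)))) := by
            gcongr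
        _ = D₁ * (1 + μ) * N₁ * (κ ^ (2 * G) * L (2 * G) * (1 / O)) *
              TTS κ (Λ / lam) L g z (2 * G) * nm α := by ring
        _ = D₁ * (1 + μ) * N₁ * θ * (κ ^ (2 * G) * TTS κ (Λ / lam) L g z (2 * G)) * nm α := by
            rw [hθκ]; ring
        _ ≤ _ := by gcongr
    rw [e]
    calc _ ≤ 2 * N₀ * N₁ * θ * R * nm α + D₁ * (1 + μ) * N₁ * θ * R * nm α
          + 4 * N₀ * N₁ * θ * R * nm α + 4 * N₀ * N₁ * θ * R * nm α := by linarith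
      _ = _ := by ring
  · -- `E2`
    have hα : Nice g L (wt g (w1 G) (E2 g σ τ D c (Om Q κ L) G z)) := by
      refine rNice _ (rwt _ _ 1 w1b ?_)
      refine Rp.add hLn ?_ ?_
      · exact Rp.add hLn (rbl _ _ (rPm r hr) (rwt _ _ _ wβ' nrz))
          (rbl _ _ (rwt _ _ _ wβ' nrz) (rPm r hr))
      · exact Rp.add hLn (rbl _ _ (rPm z hz) (rwt _ _ _ wβ' nrr))
          (rbl _ _ (rwt _ _ _ wβ' nrr) (rPm z hz))
    have hG := wt_supp (g := g) G (E2 g σ τ D c (Om Q κ L) G z)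
    set α := wt g (w1 G) (E2 g σ τ D c (Om Q κ L) G z) with hαdef
    have hXK : 0 ≤ 2 / O * K₁ := by positivity
    obtain ⟨a3, b3⟩ := bs_bd hK hs hN₀ hN₁ hKB hα hG hXK zero_le_one s5 s2
    obtain ⟨a4, b4⟩ := bs_bd hK hs hN₀ hN₁ hKB hα hG zero_le_one hXK s1 s6
    refine hfin α (8 * N₀ * N₁ * K₁) (by positivity) (by nlinarith) ?_
    have e : nm α * nm α =
        ∑' i, α i * bs c (wt g (wβ (Om Q κ L) G) (rt σ τ z)) (Pm r) i
        + ∑' i, α i * bs c (Pm z) (wt g (wβ (Om Q κ L) G) (rt σ τ r)) i := by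
      rw [hαdef, dual_eq, ← hαdef]
      have hh := a3.hasSum.add a4.hasSum
      rw [← hh.tsum_eq]
      refine tsum_congr fun i => ?_
      unfold Pool.Agent.Y6.S.E2 bs
      ring
    have d3 : ∑' i, α i * bs c (wt g (wβ (Om Q κ L) G) (rt σ τ z)) (Pm r) i ≤
        4 * N₀ * N₁ * K₁ * θ * R * nm α := by
      calc _ ≤ 2 * N₀ * N₁ * (L (2 * G) * (2 / O * K₁ * 1)) * R * nm α :=
            (le_abs_self _).trans b3
        _ = 2 * N₀ * N₁ * K₁ * (L (2 * G) * (2 / O)) * R * nm α := by ring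
        _ = _ := by rw [hLO2]; ring
    have d4 : ∑' i, α i * bs c (Pm z) (wt g (wβ (Om Q κ L) G) (rt σ τ r)) i ≤
        4 * N₀ * N₁ * K₁ * θ * R * nm α := by
      calc _ ≤ 2 * N₀ * N₁ * (L (2 * G) * (1 * (2 / O * K₁))) * R * nm α :=
            (le_abs_self _).trans b4
        _ = 2 * N₀ * N₁ * K₁ * (L (2 * G) * (2 / O)) * R * nm α := by ring
        _ = _ := by rw [hLO2]; ring
    rw [e]
    calc _ ≤ 4 * N₀ * N₁ * K₁ * θ * R * nm α + 4 * N₀ * N₁ * K₁ * θ * R * nm α := by linarith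
      _ = _ := by ring

end Pool.Agent.Y971.SK
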