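import Pool.Agent.Y8.SK.Defs

/-!
Job SK-KON: choice of the constants.
-/

open Set Filter Topology MeasureTheory

set_option autoImplicit false
set_option linter.all false

namespace Pool.Agent.Y971.SK

open Pool.Agent.Y8.SK

theorem geo_lin (c r : ℝ) (hc : 0 < c) (hr : 1 < r) : ∃ J₀ : ℕ, ∀ k, J₀ ≤ k →
    1 ≤ k ∧ c * ((k : ℝ) + 1) ≤ r ^ (k - 1) := by
  have hr0 : 0 < r := by linarith
  have h := tendsto_pow_const_div_const_pow_of_one_lt 1 hr
  have h1 : ∀ᶠ k : ℕ in atTop, (k : ℝ) ^ 1 / r ^ k < 1 / (2 * c * r) :=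
    h.eventually (gt_mem_nhds (by positivity))
  obtain ⟨J, hJ⟩ := (h1.and (eventually_ge_atTop 1)).exists_forall_of_atTop
  refine ⟨J, fun k hk => ?_⟩
  obtain ⟨h2, h3⟩ := hJ k hk
  refine ⟨h3, ?_⟩
  rw [pow_one, div_lt_div_iff₀ (by positivity) (by positivity)] at h2
  have hk1 : (1 : ℝ) ≤ k := by exact_mod_cast h3
  have e : r ^ k = r * r ^ (k - 1) := by
    conv_lhs => rw [show k = (k - 1) + 1 by omega]
    rw [pow_succ]; ring
  have h4 : r * (c * ((k : ℝ) + 1)) ≤ r * r ^ (k - 1) := by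
    rw [← e]
    calc r * (c * ((k : ℝ) + 1)) ≤ r * (c * (k + k)) := by gcongr
      _ = k * (2 * c * r) := by ring
      _ ≤ 1 * r ^ k := h2.le
      _ = _ := one_mul _
  exact le_of_mul_le_mul_left h4 hr0

theorem t_KON : S_KON := by
  intro κ lam N₂ hκ hκ1 hlam hN₂
  have hlam0 : 0 < lam := lt_of_lt_of_le (by norm_num) hlam
  have hlam1 : 1 ≤ lam := le_trans (by norm_num) hlam
  have hN0 : 0 < N₂ := by linarith
  have hs : 1 < √lam := by
    rw [Real.lt_sqrt (by norm_num)]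
    have : (1 : ℝ) ^ 2 < 10 ^ 30 := by norm_num
    linarith
  obtain ⟨J₀, hJ₀⟩ := geo_lin (10 ^ 5 * N₂ * lam) (√lam) (by positivity) hs
  set e : ℝ := Real.exp lam with he
  have he0 : 0 < e := Real.exp_pos _
  set Hi : ℝ := 4000 * N₂ * lam * e with hHi
  have hHi0 : 0 < Hi := by rw [hHi]; positivity
  set E : ℝ := Real.exp (4 * N₂ * lam ^ (J₀ + 2)) * (1 + lam ^ (J₀ + 2)) with hE
  have hpl : 0 < lam ^ (J₀ + 2) := pow_pos hlam0 _
  have hE1 : 1 ≤ E := by
    rw [hE]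
    have h1 : 1 ≤ Real.exp (4 * N₂ * lam ^ (J₀ + 2)) := Real.one_le_exp (by positivity)
    have h2 : 1 ≤ 1 + lam ^ (J₀ + 2) := by linarith
    nlinarith
  set H : ℕ → ℝ := fun k => Hi * E ^ (J₀ - k) with hH
  have hHlow : ∀ k, Hi ≤ H k := fun k => le_mul_of_one_le_right hHi0.le (one_le_pow₀ hE1)
  have hH0 : ∀ k, 0 < H k := fun k => lt_of_lt_of_le hHi0 (hHlow k)
  set A : ℝ := 2 * N₂ * lam * e with hA
  have hA0 : 0 < A := by rw [hA]; positivity
  set K : ℝ := κ⁻¹ * e * (Real.exp (3 * N₂ * lam) * (H 0 + 2 * A) + N₂) with hK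
  have hK0 : 0 < K := by
    have := hH0 0
    rw [hK]
    positivity
  refine ⟨H, A, K, max 1 (max (K * Real.exp (2 * lam)) (K ^ 2 * Real.exp (2 * lam))), hK0,
    le_max_left _ _, fun Q hQ => ?_⟩
  have hQ1 : 1 ≤ Q := (le_max_left _ _).trans hQ
  have hQ2 : K * Real.exp (2 * lam) ≤ Q := ((le_max_left _ _).trans (le_max_right _ _)).trans hQ
  have hQ3 : K ^ 2 * Real.exp (2 * lam) ≤ Q :=
    ((le_max_right _ _).trans (le_max_right _ _)).trans hQ
  have hQ0 : 0 < Q := by linarith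
  refine ⟨⟨hN₂, hQ1, hHlow, fun k => ?_, fun k => ?_, le_rfl, ?_⟩, ?_, ?_⟩
  · show Hi * E ^ (J₀ - (k + 1)) ≤ Hi * E ^ (J₀ - k)
    exact mul_le_mul_of_nonneg_left (pow_le_pow_right₀ hE1 (by omega)) hHi0.le
  · by_cases hk : J₀ ≤ k
    · exact Or.inl (hJ₀ k hk)
    · right
      have e1 : H k = E * H (k + 1) := by
        show Hi * E ^ (J₀ - k) = E * (Hi * E ^ (J₀ - (k + 1)))
        rw [show J₀ - k = (J₀ - (k + 1)) + 1 by omega, pow_succ]
        ring
      have h1 := hHlow (k + 1)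
      have h2 : lam ^ (k + 2) ≤ lam ^ (J₀ + 2) := pow_le_pow_right₀ hlam1 (by omega)
      have h3 : 2 * N₂ * e ≤ H (k + 1) := by
        refine le_trans ?_ h1
        rw [hHi]
        have : 2 * N₂ * e * 1 ≤ 2 * N₂ * e * (2000 * lam) := by
          apply mul_le_mul_of_nonneg_left _ (by positivity)
          linarith
        linarith
      have h4 := hH0 (k + 1)
      rw [e1, hE]
      calc Real.exp (4 * N₂ * lam ^ (k + 2)) * (H (k + 1) + 2 * N₂ * e * lam ^ (k + 2))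
          ≤ Real.exp (4 * N₂ * lam ^ (J₀ + 2)) * (H (k + 1) + H (k + 1) * lam ^ (J₀ + 2)) := by
            gcongr
        _ = _ := by ring
  · have : K / Q * Q = K := by field_simp
    rw [this]
  · rw [Real.exp_neg, div_le_iff₀ hQ0, ← div_eq_inv_mul, le_div_iff₀ (Real.exp_pos _)]
    exact hQ2
  · have e1 : Q * (K / Q) ^ 2 = K ^ 2 / Q := by
      field_simp
    rw [e1, Real.exp_neg, div_le_iff₀ hQ0, ← div_eq_inv_mul, le_div_iff₀ (Real.exp_pos _)]
    exact hQ3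

end Pool.Agent.Y971.SK
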